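import Pool.Agent.Run7.h32.EE.Lost

/-!
The dyadic model: the inviscid limit in the energy norm, uniformly in time.
-/

set_option autoImplicit false

open Set Filter Topology MeasureTheory

namespace Pool.Agent.Run7.h32.EE

open Run7.h969.Dy Pool.Agent.Run7.h32.Dy Pool.Agent.Run7.h32.On

/-- the inviscid limit of finitely many shells -/
theorem stab_l2 {β E T : ℝ} {x : ℕ → ℝ} {Z : ℕ → ℝ → ℝ} (hβ : 0 ≤ β) (hT : 0 ≤ T)
    (SZ : Sol β 0 E x Z) (N : ℕ) {ε : ℝ} (hε : 0 < ε) :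
    ∃ ν0 > 0, ∀ (ν : ℝ) (X : ℕ → ℝ → ℝ), ν ≤ ν0 → Sol β ν E x X → ∀ t ∈ Icc 0 T,
      ∑ n ∈ Finset.range N, (X n t - Z n t) ^ 2 ≤ ε := by
  induction N generalizing ε with
  | zero => exact ⟨1, one_pos, fun ν X _ _ t _ => by simpa using hε.le⟩
  | succ N ih =>
    obtain ⟨ν1, hν1, h1⟩ := ih (half_pos hε)
    obtain ⟨ν2, hν2, h2⟩ := stab hβ hT SZ N (half_pos hε)
    refine ⟨min ν1 ν2, lt_min hν1 hν2, fun ν X hν SX t ht => ?_⟩
    have i1 := h1 ν X (hν.trans (min_le_left _ _)) SX t ht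
    have i2 := h2 ν X (hν.trans (min_le_right _ _)) SX t ht
    rw [Finset.sum_range_succ]
    linarith

lemma summ {β ν E : ℝ} {x : ℕ → ℝ} {X : ℕ → ℝ → ℝ} (S : Sol β ν E x X) {t : ℝ} (ht : 0 ≤ t) :
    Summable fun n => X n t ^ 2 :=
  summable_of_sum_range_le (c := E) (fun n => sq_nonneg _) fun N => S.sum_le N ht

/-- **The inviscid limit in the energy norm**, uniformly in time. -/
theorem limit {β E : ℝ} (hβ : 5 / 2 ≤ β) {x : ℕ → ℝ} {Z : ℕ → ℝ → ℝ}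
    (hs : HasSum (fun n => x n ^ 2) E) (SZ : Sol β 0 E x Z) {ε : ℝ} (hε : 0 < ε) :
    ∃ ν0 > 0, ∀ (ν : ℝ) (X : ℕ → ℝ → ℝ), ν ≤ ν0 → Sol β ν E x X → ∀ t, 0 ≤ t →
      (∀ N : ℕ, ∑ n ∈ Finset.range N, (X n t - Z n t) ^ 2 ≤ ε) ∧
      |∑' n, X n t ^ 2 - ∑' n, Z n t ^ 2| ≤ ε := by
  have hE0 := SZ.E0
  have hβ0 : 0 ≤ β := by linarith
  have hZ := SZ.dy
  -- the first shells at the time 0
  have h1 : ∀ᶠ N : ℕ in atTop, E - ε / 64 < ∑ n ∈ Finset.range N, x n ^ 2 :=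
    hs.tendsto_sum_nat.eventually (lt_mem_nhds (by linarith))
  obtain ⟨N1, hN1⟩ := h1.exists
  -- a small time
  have h2 : ∃ τ, 0 < τ ∧ τ < 1 ∧ ∀ r ∈ Icc 0 τ, E - ε / 32 < ∑ n ∈ Finset.range N1, Z n r ^ 2 := by
    have hc : ContinuousWithinAt (fun r => ∑ n ∈ Finset.range N1, Z n r ^ 2) (Ici 0) 0 :=
      (continuousOn_finsetSum _ fun n _ => (hZ.cont n).pow 2) 0 (mem_Ici.2 le_rfl)
    have h0 : ∑ n ∈ Finset.range N1, Z n 0 ^ 2 = ∑ n ∈ Finset.range N1, x n ^ 2 :=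
      Finset.sum_congr rfl fun n _ => by rw [hZ.init n]
    have h3 : ∀ᶠ r in 𝓝[Ici 0] (0 : ℝ), E - ε / 32 < ∑ n ∈ Finset.range N1, Z n r ^ 2 := by
      apply hc.eventually (lt_mem_nhds _)
      show E - ε / 32 < ∑ n ∈ Finset.range N1, Z n 0 ^ 2
      rw [h0]
      linarith
    rw [eventually_nhdsWithin_iff, Metric.eventually_nhds_iff] at h3
    obtain ⟨δ, hδ, h4⟩ := h3
    refine ⟨min (δ / 2) (1 / 2), by positivity, ?_, fun r hr => ?_⟩
    · exact lt_of_le_of_lt (min_le_right _ _) (by norm_num)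
    · refine h4 ?_ hr.1
      rw [Real.dist_eq, sub_zero, abs_of_nonneg hr.1]
      have := hr.2.trans (min_le_left _ _)
      linarith
  obtain ⟨τ, hτ0, hτ1, hτ⟩ := h2
  -- the bound after the time τ
  obtain ⟨C, hC0, hC⟩ := sq_bound hβ hτ0 hE0
  obtain ⟨q, hq⟩ : ∃ q, q = (2 : ℝ) ^ (-(2 * β / 3)) := ⟨_, rfl⟩
  have hq0 : 0 < q := by rw [hq]; positivity
  have hq1 : q < 1 := by rw [hq]; exact rate_lt (by linarith)
  rw [← hq] at hC
  have hlim : Tendsto (fun N : ℕ => C * q ^ N / (1 - q)) atTop (𝓝 0) := by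
    have := ((tendsto_pow_atTop_nhds_zero_of_lt_one hq0.le hq1).const_mul C).div_const (1 - q)
    simpa using this
  obtain ⟨N2, hN2⟩ := eventually_atTop.1 (hlim.eventually (gt_mem_nhds (by linarith : 0 < ε / 32)))
  obtain ⟨L, hL⟩ : ∃ L, L = max N1 N2 := ⟨_, rfl⟩
  have hL1 : N1 ≤ L := hL ▸ le_max_left _ _
  have hL2 := hN2 L (hL ▸ le_max_right _ _)
  -- the large time
  obtain ⟨T, hT1, hT⟩ := inviscid_decay hβ SZ (by linarith : 0 < ε / 16)
  have hT0 : 0 < T := by linarith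
  obtain ⟨ν1, hν1, hst1⟩ := stab_sum hβ0 hT0.le SZ L (by linarith : 0 < ε / 32)
  obtain ⟨ν2, hν2, hst2⟩ := stab_l2 hβ0 hT0.le SZ L (by linarith : 0 < ε / 32)
  -- the tails
  have tail : ∀ (ν : ℝ) (Y : ℕ → ℝ → ℝ), ν ≤ min ν1 ν2 → Sol β ν E x Y → ∀ t, 0 ≤ t → ∀ N : ℕ,
      ∑ n ∈ Finset.range N, Y (L + n) t ^ 2 ≤ ε / 16 := by
    intro ν Y hν SY t ht N
    rcases le_total t τ with h | h
    · have i1 := SY.sum_le (L + N) ht
      rw [Finset.sum_range_add] at i1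
      have i2 := (abs_le.1 (hst1 ν Y (hν.trans (min_le_left _ _)) SY t ⟨ht, by linarith⟩)).1
      have i3 := hτ t ⟨ht, h⟩
      have i4 : ∑ n ∈ Finset.range N1, Z n t ^ 2 ≤ ∑ n ∈ Finset.range L, Z n t ^ 2 :=
        Finset.sum_le_sum_of_subset_of_nonneg (Finset.range_mono hL1) fun n _ _ => sq_nonneg _
      linarith
    · have := tail_le (y := fun n => Y n t ^ 2) hq0.le hq1 hC0 (fun n => hC ν x Y SY t h n) L N
      linarith
  -- the tails of the energies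
  have ttail : ∀ (ν : ℝ) (Y : ℕ → ℝ → ℝ), ν ≤ min ν1 ν2 → Sol β ν E x Y → ∀ t, 0 ≤ t →
      ∑ n ∈ Finset.range L, Y n t ^ 2 ≤ ∑' n, Y n t ^ 2 ∧
      ∑' n, Y n t ^ 2 ≤ ∑ n ∈ Finset.range L, Y n t ^ 2 + ε / 16 := by
    intro ν Y hν SY t ht
    have hsu := summ SY ht
    refine ⟨hsu.sum_le_tsum _ fun n _ => sq_nonneg _, ?_⟩
    refine hsu.tsum_le_of_sum_range_le fun N => ?_
    have h1 : ∑ n ∈ Finset.range N, Y n t ^ 2 ≤ ∑ n ∈ Finset.range (L + N), Y n t ^ 2 :=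
      Finset.sum_le_sum_of_subset_of_nonneg (Finset.range_mono (Nat.le_add_left _ _))
        fun n _ _ => sq_nonneg _
    rw [Finset.sum_range_add] at h1
    have := tail ν Y hν SY t ht N
    linarith
  have hZ0 : (0 : ℝ) ≤ min ν1 ν2 := le_min hν1.le hν2.le
  refine ⟨min ν1 ν2, lt_min hν1 hν2, fun ν X hν SX t ht => ?_⟩
  have hd : ∀ n, (X n t - Z n t) ^ 2 ≤ X n t ^ 2 + Z n t ^ 2 := fun n => by
    have := mul_nonneg (SX.nn n ht) (SZ.nn n ht)
    nlinarith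
  rcases le_total t T with h | h
  · constructor
    · intro N
      have i1 := hst2 ν X (hν.trans (min_le_right _ _)) SX t ⟨ht, h⟩
      have i2 : ∑ n ∈ Finset.range N, (X (L + n) t - Z (L + n) t) ^ 2
          ≤ ∑ n ∈ Finset.range N, X (L + n) t ^ 2 + ∑ n ∈ Finset.range N, Z (L + n) t ^ 2 := by
        rw [← Finset.sum_add_distrib]
        exact Finset.sum_le_sum fun n _ => hd (L + n)
      have i3 : ∑ n ∈ Finset.range N, (X n t - Z n t) ^ 2
          ≤ ∑ n ∈ Finset.range (L + N), (X n t - Z n t) ^ 2 :=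
        Finset.sum_le_sum_of_subset_of_nonneg (Finset.range_mono (Nat.le_add_left _ _))
          fun n _ _ => sq_nonneg _
      rw [Finset.sum_range_add] at i3
      have i5 := tail ν X hν SX t ht N
      have i6 := tail 0 Z hZ0 SZ t ht N
      linarith
    · obtain ⟨j1, j2⟩ := abs_le.1 (hst1 ν X (hν.trans (min_le_left _ _)) SX t ⟨ht, h⟩)
      obtain ⟨a1, a2⟩ := ttail ν X hν SX t ht
      obtain ⟨b1, b2⟩ := ttail 0 Z hZ0 SZ t ht
      rw [abs_le]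
      constructor <;> linarith
  · -- large times
    obtain ⟨j1, j2⟩ := abs_le.1 (hst1 ν X (hν.trans (min_le_left _ _)) SX T ⟨hT0.le, le_rfl⟩)
    obtain ⟨a1, a2⟩ := ttail ν X hν SX T hT0.le
    have hXt : ∀ N : ℕ, ∑ n ∈ Finset.range N, X n t ^ 2 ≤ ε / 4 := by
      intro N
      have i1 := energy_anti' SX N hT0.le h
      have i2 : ∑ n ∈ Finset.range N, X n T ^ 2 ≤ ∑' n, X n T ^ 2 :=
        (summ SX hT0.le).sum_le_tsum _ fun n _ => sq_nonneg _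
      have i3 := hT T le_rfl L
      linarith
    have hZt : ∀ N : ℕ, ∑ n ∈ Finset.range N, Z n t ^ 2 ≤ ε / 16 := hT t h
    constructor
    · intro N
      have i2 : ∑ n ∈ Finset.range N, (X n t - Z n t) ^ 2
          ≤ ∑ n ∈ Finset.range N, X n t ^ 2 + ∑ n ∈ Finset.range N, Z n t ^ 2 := by
        rw [← Finset.sum_add_distrib]
        exact Finset.sum_le_sum fun n _ => hd n
      have := hXt N
      have := hZt N
      linarith
    · have i1 : ∑' n, X n t ^ 2 ≤ ε / 4 := (summ SX ht).tsum_le_of_sum_range_le hXt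
      have i2 : ∑' n, Z n t ^ 2 ≤ ε / 16 := (summ SZ ht).tsum_le_of_sum_range_le hZt
      have i3 : 0 ≤ ∑' n, X n t ^ 2 := tsum_nonneg fun n => sq_nonneg _
      have i4 : 0 ≤ ∑' n, Z n t ^ 2 := tsum_nonneg fun n => sq_nonneg _
      rw [abs_le]
      constructor <;> linarith

end Pool.Agent.Run7.h32.EE
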