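import Pool.Agent.Run7.h969.Dz.Top
import Pool.Agent.Run7.h969.Dz.Crit
import Pool.Agent.Run7.h32.Dy.WP

/-!
The dyadic model: the energy equality for the Leray-Hopf solutions, `β ≤ 3`.
-/

set_option autoImplicit false

open Set Filter Topology MeasureTheory

namespace Pool.Agent.Run7.h32.EE

open Run7.h969.Dy Pool.Agent.Run7.h32.Dy

/-- the truncated energy identity between two times -/
lemma trunc_id {β ν : ℝ} {x : ℕ → ℝ} {X : ℕ → ℝ → ℝ} (hX : IsDy β ν x X) (N : ℕ) {s t : ℝ}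
    (hs : 0 ≤ s) (hst : s ≤ t) :
    ∑ n ∈ Finset.range (N + 1), X n t ^ 2
      + 2 * ν * (∫ r in s..t, ∑ n ∈ Finset.range (N + 1), 4 ^ n * X n r ^ 2)
      + 2 * (∫ r in s..t, (2 : ℝ) ^ (β * N) * (X N r ^ 2 * X (N + 1) r))
      = ∑ n ∈ Finset.range (N + 1), X n s ^ 2 := by
  have hc : ∀ k, ContinuousOn (X k) (Icc s t) := fun k =>
    (hX.cont k).mono fun r hr => hs.trans hr.1
  have hc1 : ContinuousOn (fun s => (2 : ℝ) ^ (β * N) * (X N s ^ 2 * X (N + 1) s)) (Icc s t) :=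
    continuousOn_const.mul (((hc N).pow 2).mul (hc (N + 1)))
  have hc2 : ContinuousOn (fun s => ∑ n ∈ Finset.range (N + 1), (4 : ℝ) ^ n * X n s ^ 2)
      (Icc s t) := continuousOn_finsetSum _ fun n _ => continuousOn_const.mul ((hc n).pow 2)
  have hi1 : IntervalIntegrable (fun s => (2 : ℝ) ^ (β * N) * (X N s ^ 2 * X (N + 1) s))
      volume s t := ContinuousOn.intervalIntegrable (by rw [uIcc_of_le hst]; exact hc1)
  have hi2 : IntervalIntegrable (fun s => ∑ n ∈ Finset.range (N + 1), (4 : ℝ) ^ n * X n s ^ 2)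
      volume s t := ContinuousOn.intervalIntegrable (by rw [uIcc_of_le hst]; exact hc2)
  have h1 : ∫ s in s..t, (-2 * ((2 : ℝ) ^ (β * N) * (X N s ^ 2 * X (N + 1) s))
      - 2 * ν * (∑ n ∈ Finset.range (N + 1), 4 ^ n * X n s ^ 2))
      = ∑ n ∈ Finset.range (N + 1), X n t ^ 2 - ∑ n ∈ Finset.range (N + 1), X n s ^ 2 := by
    refine intervalIntegral.integral_eq_sub_of_hasDerivAt_of_le hst
      (f := fun s => ∑ n ∈ Finset.range (N + 1), X n s ^ 2) ?_ ?_ ?_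
    · exact continuousOn_finsetSum _ fun k _ => (hc k).pow 2
    · intro r hr
      have hr0 : 0 < r := hs.trans_lt hr.1
      have := energy_hd (S := univ) (β := β) (ν := ν) (X := X) (t := r) N
        (fun n _ => (hX.ode n r hr0).hasDerivWithinAt)
      refine (this.hasDerivAt univ_mem).congr_deriv ?_
      ring
    · exact (hi1.const_mul (-2)).sub (hi2.const_mul (2 * ν))
  rw [intervalIntegral.integral_sub (hi1.const_mul (-2)) (hi2.const_mul (2 * ν)),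
    intervalIntegral.integral_const_mul (-2), intervalIntegral.integral_const_mul (2 * ν)] at h1
  linarith

lemma ii_diss {β ν : ℝ} {x : ℕ → ℝ} {X : ℕ → ℝ → ℝ} (hX : IsDy β ν x X) (N : ℕ) {s t : ℝ}
    (hs : 0 ≤ s) (hst : s ≤ t) :
    IntervalIntegrable (fun r => ∑ n ∈ Finset.range N, (4 : ℝ) ^ n * X n r ^ 2) volume s t := by
  refine ContinuousOn.intervalIntegrable ?_
  rw [uIcc_of_le hst]
  exact continuousOn_finsetSum _ fun n _ => continuousOn_const.mul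
    (((hX.cont n).mono fun r hr => hs.trans hr.1).pow 2)

lemma diss_nn {X : ℕ → ℝ → ℝ} (N : ℕ) {s t : ℝ} (hst : s ≤ t) :
    0 ≤ ∫ r in s..t, ∑ n ∈ Finset.range N, (4 : ℝ) ^ n * X n r ^ 2 :=
  intervalIntegral.integral_nonneg hst fun r _ => Finset.sum_nonneg fun n _ => by positivity

/-- the lower bound -/
theorem ee_ge {β ν : ℝ} {x : ℕ → ℝ} {X : ℕ → ℝ → ℝ} (hν : 0 < ν) (hβ : β ≤ 3)
    (hX : IsDy β ν x X) (hx : Summable fun n => x n ^ 2)
    (hS : ∀ τ > 0, ∃ K, ∀ (n : ℕ) t, τ ≤ t → (2 : ℝ) ^ (3 * (n : ℝ)) * |X n t| ≤ K) {t : ℝ}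
    (ht : 0 < t) {ε : ℝ} (hε : 0 < ε) :
    ∃ N0 : ℕ, ∀ N, N0 ≤ N → ∑' n, x n ^ 2 - ε ≤ ∑ n ∈ Finset.range N, X n t ^ 2
      + 2 * ν * ∫ r in (0 : ℝ)..t, ∑ n ∈ Finset.range N, (4 : ℝ) ^ n * X n r ^ 2 := by
  obtain ⟨E, hE⟩ : ∃ E, E = ∑' n, x n ^ 2 := ⟨_, rfl⟩
  rw [← hE]
  -- the first shells at the time 0
  have h1 : ∀ᶠ N : ℕ in atTop, E - ε / 4 < ∑ n ∈ Finset.range N, x n ^ 2 := by
    have := hx.hasSum.tendsto_sum_nat
    rw [← hE] at this
    exact this.eventually (lt_mem_nhds (by linarith))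
  obtain ⟨N1, hN1⟩ := h1.exists
  -- a small time
  have h2 : ∃ τ, 0 < τ ∧ τ < t ∧ E - ε / 2 < ∑ n ∈ Finset.range N1, X n τ ^ 2 := by
    have hc : ContinuousWithinAt (fun r => ∑ n ∈ Finset.range N1, X n r ^ 2) (Ici 0) 0 :=
      (continuousOn_finsetSum _ fun n _ => (hX.cont n).pow 2) 0 (mem_Ici.2 le_rfl)
    have h0 : ∑ n ∈ Finset.range N1, X n 0 ^ 2 = ∑ n ∈ Finset.range N1, x n ^ 2 :=
      Finset.sum_congr rfl fun n _ => by rw [hX.init n]
    have h3 : ∀ᶠ r in 𝓝[Ici 0] (0 : ℝ), E - ε / 2 < ∑ n ∈ Finset.range N1, X n r ^ 2 := by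
      apply hc.eventually (lt_mem_nhds _)
      show E - ε / 2 < ∑ n ∈ Finset.range N1, X n 0 ^ 2
      rw [h0]
      linarith
    have h4 : ∀ᶠ r in 𝓝[Ioi 0] (0 : ℝ), E - ε / 2 < ∑ n ∈ Finset.range N1, X n r ^ 2 :=
      h3.filter_mono (nhdsWithin_mono 0 Ioi_subset_Ici_self)
    have h5 : ∀ᶠ r in 𝓝[Ioi 0] (0 : ℝ), r ∈ Ioo 0 t := Ioo_mem_nhdsGT ht
    obtain ⟨τ, h6, h7⟩ := (h4.and h5).exists
    exact ⟨τ, h7.1, h7.2, h6⟩
  obtain ⟨τ, hτ0, hτt, hτ⟩ := h2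
  obtain ⟨K, hK⟩ := hS τ hτ0
  have hK0 : 0 ≤ K := le_trans (by positivity) (hK 0 τ le_rfl)
  -- the flux
  have hflux : ∀ N : ℕ, 2 * (∫ r in τ..t, (2 : ℝ) ^ (β * N) * (X N r ^ 2 * X (N + 1) r))
      ≤ 2 * (t * K ^ 3) * (1 / 2) ^ N := by
    intro N
    have h3 : ∀ r ∈ Icc τ t, (2 : ℝ) ^ (β * N) * (X N r ^ 2 * X (N + 1) r)
        ≤ K ^ 3 * (1 / 2) ^ N := by
      intro r hr
      have i1 := hK N r hr.1
      have i2 := hK (N + 1) r hr.1
      have p0 : (0 : ℝ) < (2 : ℝ) ^ (3 * (N : ℝ)) := by positivity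
      have e1 : (2 : ℝ) ^ (β * N) ≤ (2 : ℝ) ^ (3 * (N : ℝ)) :=
        Real.rpow_le_rpow_of_exponent_le one_le_two
          (mul_le_mul_of_nonneg_right hβ (Nat.cast_nonneg N))
      have e2 : (2 : ℝ) ^ (3 * ((N + 1 : ℕ) : ℝ)) = 8 * (2 : ℝ) ^ (3 * (N : ℝ)) := by
        push_cast
        rw [mul_add, Real.rpow_add two_pos]
        norm_num
        ring
      rw [e2] at i2
      obtain ⟨P, hP⟩ : ∃ P, P = (2 : ℝ) ^ (3 * (N : ℝ)) := ⟨_, rfl⟩
      rw [← hP] at i1 i2 p0 e1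
      have e3 : (1 / 2 : ℝ) ^ N = (2 : ℝ) ^ (-(N : ℝ)) := by
        rw [Real.rpow_neg two_pos.le, Real.rpow_natCast, one_div, inv_pow]
      have e4 : 1 ≤ P * (1 / 2) ^ N := by
        rw [e3, hP, ← Real.rpow_add two_pos]
        apply Real.one_le_rpow one_le_two
        have : (0 : ℝ) ≤ N := Nat.cast_nonneg N
        linarith
      have i3 : |X (N + 1) r| * P ≤ K := by
        have := mul_nonneg p0.le (abs_nonneg (X (N + 1) r))
        linarith
      have i4 : X N r ^ 2 * X (N + 1) r ≤ |X N r| ^ 2 * |X (N + 1) r| := by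
        rw [sq_abs]
        exact mul_le_mul_of_nonneg_left (le_abs_self _) (sq_nonneg _)
      have i5 : (P * |X N r|) ^ 2 * (|X (N + 1) r| * P) ≤ K ^ 2 * K :=
        mul_le_mul (pow_le_pow_left₀ (by positivity) i1 2) i3 (by positivity) (by positivity)
      have i6 : (2 : ℝ) ^ (β * N) * (X N r ^ 2 * X (N + 1) r)
          ≤ P * (|X N r| ^ 2 * |X (N + 1) r|) :=
        (mul_le_mul_of_nonneg_left i4 (by positivity)).trans
          (mul_le_mul_of_nonneg_right e1 (by positivity))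
      have h12 : (0 : ℝ) < (1 / 2) ^ N := by positivity
      have i7 : P * (|X N r| ^ 2 * |X (N + 1) r|) ≤ P * (|X N r| ^ 2 * |X (N + 1) r|)
          * (P * (1 / 2) ^ N) := le_mul_of_one_le_right (by positivity) e4
      have hP1 : 1 ≤ P := by
        rw [hP]
        exact Real.one_le_rpow one_le_two (by positivity)
      have i8 : P * (|X N r| ^ 2 * |X (N + 1) r|) * (P * (1 / 2) ^ N)
          ≤ P * (|X N r| ^ 2 * |X (N + 1) r|) * (P * (1 / 2) ^ N) * P :=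
        le_mul_of_one_le_right (by positivity) hP1
      have i9 := mul_le_mul_of_nonneg_right i5 h12.le
      calc _ ≤ _ := i6
        _ ≤ _ := i7
        _ ≤ _ := i8
        _ = (P * |X N r|) ^ 2 * (|X (N + 1) r| * P) * (1 / 2) ^ N := by ring
        _ ≤ _ := i9
        _ = _ := by ring
    have hci : IntervalIntegrable (fun r => (2 : ℝ) ^ (β * N) * (X N r ^ 2 * X (N + 1) r))
        volume τ t := by
      refine ContinuousOn.intervalIntegrable ?_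
      rw [uIcc_of_le hτt.le]
      have hc : ∀ k, ContinuousOn (X k) (Icc τ t) := fun k =>
        (hX.cont k).mono fun r hr => hτ0.le.trans hr.1
      exact continuousOn_const.mul (((hc N).pow 2).mul (hc (N + 1)))
    have h4 := intervalIntegral.integral_mono_on hτt.le hci intervalIntegrable_const h3
    rw [intervalIntegral.integral_const, smul_eq_mul] at h4
    have h5 : (t - τ) * (K ^ 3 * (1 / 2) ^ N) ≤ t * (K ^ 3 * (1 / 2) ^ N) :=
      mul_le_mul_of_nonneg_right (by linarith) (by positivity)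
    linarith
  have hlim : Tendsto (fun N : ℕ => 2 * (t * K ^ 3) * (1 / 2 : ℝ) ^ N) atTop (𝓝 0) := by
    have := (tendsto_pow_atTop_nhds_zero_of_lt_one (by norm_num : (0 : ℝ) ≤ 1 / 2)
      (by norm_num)).const_mul (2 * (t * K ^ 3))
    simpa using this
  obtain ⟨N2, hN2⟩ := eventually_atTop.1 (hlim.eventually (gt_mem_nhds (by linarith : 0 < ε / 2)))
  refine ⟨max N1 N2 + 1, fun N hN => ?_⟩
  obtain ⟨M, rfl⟩ : ∃ M, N = M + 1 := ⟨N - 1, by omega⟩
  have hM1 : N1 ≤ M + 1 := by omega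
  have hM2 : N2 ≤ M := by omega
  have i1 := trunc_id hX M hτ0.le hτt.le
  have i2 := hflux M
  have i3 := hN2 M hM2
  have i4 : ∑ n ∈ Finset.range N1, X n τ ^ 2 ≤ ∑ n ∈ Finset.range (M + 1), X n τ ^ 2 :=
    Finset.sum_le_sum_of_subset_of_nonneg (Finset.range_mono hM1) fun n _ _ => sq_nonneg _
  have i5 := intervalIntegral.integral_add_adjacent_intervals
    (ii_diss hX (M + 1) le_rfl hτ0.le) (ii_diss hX (M + 1) hτ0.le hτt.le)
  have i6 := diss_nn (X := X) (M + 1) hτ0.le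
  rw [← i5]
  have i7 := mul_nonneg hν.le i6
  nlinarith

/-- **The energy equality**, `β ≤ 3`. -/
theorem ee {β ν : ℝ} {x : ℕ → ℝ} {X : ℕ → ℝ → ℝ} (hν : 0 < ν) (hβ : β ≤ 3)
    (hX : IsDy β ν x X) (he : Run7.h969.Dz.EI ν X 0)
    (hS : ∀ τ > 0, ∃ K, ∀ (n : ℕ) t, τ ≤ t → (2 : ℝ) ^ (3 * (n : ℝ)) * |X n t| ≤ K) {t : ℝ}
    (ht : 0 ≤ t) :
    HasSum (fun n => X n t ^ 2 + 2 * ν * ∫ r in (0 : ℝ)..t, 4 ^ n * X n r ^ 2)
      (∑' n, X n 0 ^ 2) := by
  rcases ht.eq_or_lt with h0 | h0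
  · rw [← h0]
    simp only [intervalIntegral.integral_same, mul_zero, add_zero]
    exact he.1.hasSum
  have hx : Summable fun n => x n ^ 2 := by
    have := he.1
    simpa only [hX.init] using this
  have hx' : ∑' n, X n 0 ^ 2 = ∑' n, x n ^ 2 := by simp only [hX.init]
  have hpart : ∀ N : ℕ, ∑ n ∈ Finset.range N,
      (X n t ^ 2 + 2 * ν * ∫ r in (0 : ℝ)..t, 4 ^ n * X n r ^ 2)
      = ∑ n ∈ Finset.range N, X n t ^ 2
        + 2 * ν * ∫ r in (0 : ℝ)..t, ∑ n ∈ Finset.range N, (4 : ℝ) ^ n * X n r ^ 2 := by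
    intro N
    rw [Finset.sum_add_distrib, ← Finset.mul_sum, intervalIntegral.integral_finsetSum]
    intro n _
    refine ContinuousOn.intervalIntegrable ?_
    rw [uIcc_of_le ht]
    exact continuousOn_const.mul (((hX.cont n).mono fun r hr => hr.1).pow 2)
  rw [hasSum_iff_tendsto_nat_of_nonneg]
  · rw [Metric.tendsto_atTop]
    intro ε hε
    obtain ⟨N0, hN0⟩ := ee_ge hν hβ hX hx hS h0 (half_pos hε)
    refine ⟨N0, fun N hN => ?_⟩
    have h1 := hN0 N hN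
    have h2 := he.2 t ht N
    rw [← hpart] at h1 h2
    rw [Real.dist_eq, abs_lt, hx']
    rw [hx'] at h2
    constructor <;> linarith
  · intro n
    have h1 : 0 ≤ ∫ r in (0 : ℝ)..t, (4 : ℝ) ^ n * X n r ^ 2 :=
      intervalIntegral.integral_nonneg ht fun r _ => by positivity
    positivity

theorem stmReal : Run7.h969.Dz.StmReal :=
  Run7.h969.Dz.real_of Run7.h969.Dz.stmC Run7.h969.Dz.stmD Run7.h969.Dz.stmE Run7.h969.Dz.stmE'
    Run7.h969.Dz.stmF Run7.h969.Dz.stmS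

/-- The energy equality of all the Leray-Hopf solutions, `β ≤ 3`. -/
theorem ee_lh {β ν : ℝ} {x : ℕ → ℝ} {X : ℕ → ℝ → ℝ} (hν : 0 < ν) (hβ : β ≤ 3)
    (hX : Run7.h969.Dz.LH β ν x X) {t : ℝ} (ht : 0 ≤ t) :
    HasSum (fun n => X n t ^ 2 + 2 * ν * ∫ r in (0 : ℝ)..t, 4 ^ n * X n r ^ 2)
      (∑' n, X n 0 ^ 2) :=
  ee hν hβ hX.sol hX.en0 (fun _ hτ => Run7.h969.Dz.lh_smooth stmReal hβ hν hX 3 hτ) ht

end Pool.Agent.Run7.h32.EE
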