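import Pool.Agent.Run7.h32.EE.Stab
import Pool.Agent.Run7.h32.On.Fin3

/-!
The dyadic model with `β > 3`: almost all the energy is lost without being dissipated.
-/

set_option autoImplicit false

open Set Filter Topology MeasureTheory

namespace Pool.Agent.Run7.h32.EE

open Run7.h969.Dy Pool.Agent.Run7.h32.Dy Pool.Agent.Run7.h32.On

lemma diff_sq_le {a b s η : ℝ} (ha : 0 ≤ a) (hb : 0 ≤ b) (has : a ≤ s) (hbs : b ≤ s)
    (hη : 0 ≤ η) (h : (a - b) ^ 2 ≤ η ^ 2) : |a ^ 2 - b ^ 2| ≤ η * (2 * s) := by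
  have h1 : |a - b| ≤ η := abs_le_of_sq_le_sq h hη
  have h2 : a ^ 2 - b ^ 2 = (a - b) * (a + b) := by ring
  rw [h2, abs_mul, abs_of_nonneg (add_nonneg ha hb)]
  exact mul_le_mul h1 (by linarith) (add_nonneg ha hb) hη

/-- the inviscid limit of the energy of finitely many shells -/
theorem stab_sum {β E T : ℝ} {x : ℕ → ℝ} {Z : ℕ → ℝ → ℝ} (hβ : 0 ≤ β) (hT : 0 ≤ T)
    (SZ : Sol β 0 E x Z) (N : ℕ) {ε : ℝ} (hε : 0 < ε) :
    ∃ ν0 > 0, ∀ (ν : ℝ) (X : ℕ → ℝ → ℝ), ν ≤ ν0 → Sol β ν E x X → ∀ t ∈ Icc 0 T,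
      |∑ n ∈ Finset.range N, X n t ^ 2 - ∑ n ∈ Finset.range N, Z n t ^ 2| ≤ ε := by
  have hE := SZ.E0
  induction N generalizing ε with
  | zero => exact ⟨1, one_pos, fun ν X _ _ t _ => by simpa using hε.le⟩
  | succ N ih =>
    obtain ⟨ν1, hν1, h1⟩ := ih (half_pos hε)
    obtain ⟨η, hη⟩ : ∃ η, η = ε / (4 * (√E + 1)) := ⟨_, rfl⟩
    have hη0 : 0 < η := by rw [hη]; positivity
    obtain ⟨ν2, hν2, h2⟩ := stab hβ hT SZ N (pow_pos hη0 2)
    refine ⟨min ν1 ν2, lt_min hν1 hν2, fun ν X hν SX t ht => ?_⟩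
    have i1 := h1 ν X (hν.trans (min_le_left _ _)) SX t ht
    have i2 := h2 ν X (hν.trans (min_le_right _ _)) SX t ht
    have i3 : X N t ≤ √E := Real.le_sqrt_of_sq_le (SX.sq_le N ht.1)
    have i4 : Z N t ≤ √E := Real.le_sqrt_of_sq_le (SZ.sq_le N ht.1)
    have i5 := diff_sq_le (SX.nn N ht.1) (SZ.nn N ht.1) i3 i4 hη0.le i2
    have i6 : η * (2 * √E) ≤ ε / 2 := by
      have : η * (4 * (√E + 1)) = ε := by rw [hη]; field_simp
      linarith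
    rw [Finset.sum_range_succ, Finset.sum_range_succ]
    have i7 : ∑ n ∈ Finset.range N, X n t ^ 2 + X N t ^ 2 - (∑ n ∈ Finset.range N, Z n t ^ 2
        + Z N t ^ 2) = (∑ n ∈ Finset.range N, X n t ^ 2 - ∑ n ∈ Finset.range N, Z n t ^ 2)
        + (X N t ^ 2 - Z N t ^ 2) := by ring
    rw [i7]
    refine (abs_add_le _ _).trans ?_
    linarith

/-- geometric tails -/
lemma tail_le {C q : ℝ} {y : ℕ → ℝ} (hq0 : 0 ≤ q) (hq1 : q < 1) (hC : 0 ≤ C)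
    (h : ∀ n, y n ≤ C * q ^ n) (N2 N : ℕ) :
    ∑ n ∈ Finset.range N, y (N2 + n) ≤ C * q ^ N2 / (1 - q) := by
  have h1 : ∑ n ∈ Finset.range N, y (N2 + n) ≤ ∑ n ∈ Finset.range N, C * q ^ N2 * q ^ n := by
    refine Finset.sum_le_sum fun n _ => (h (N2 + n)).trans (le_of_eq ?_)
    rw [pow_add]
    ring
  refine h1.trans ?_
  rw [← Finset.mul_sum, div_eq_mul_inv]
  apply mul_le_mul_of_nonneg_left _ (by positivity)
  have h5 := (summable_geometric_of_lt_one hq0 hq1).sum_le_tsum (Finset.range N)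
    (fun n _ => by positivity)
  rwa [tsum_geometric_of_lt_one hq0 hq1] at h5

lemma sum_le_tail {C q : ℝ} {y : ℕ → ℝ} (hq0 : 0 ≤ q) (hq1 : q < 1) (hC : 0 ≤ C)
    (hy : ∀ n, 0 ≤ y n) (h : ∀ n, y n ≤ C * q ^ n) (N2 N : ℕ) :
    ∑ n ∈ Finset.range N, y n ≤ ∑ n ∈ Finset.range N2, y n + C * q ^ N2 / (1 - q) := by
  have h1 : ∑ n ∈ Finset.range N, y n ≤ ∑ n ∈ Finset.range (N2 + N), y n :=
    Finset.sum_le_sum_of_subset_of_nonneg (Finset.range_mono (Nat.le_add_left _ _))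
      fun n _ _ => hy n
  rw [Finset.sum_range_add] at h1
  have h2 := tail_le hq0 hq1 hC h N2 N
  linarith

lemma sum_le_geo {C q : ℝ} {y : ℕ → ℝ} (hq0 : 0 ≤ q) (hq1 : q < 1) (hC : 0 ≤ C)
    (h : ∀ n, y n ≤ C * q ^ n) (N : ℕ) : ∑ n ∈ Finset.range N, y n ≤ C / (1 - q) := by
  have := tail_le hq0 hq1 hC h 0 N
  simpa using this

/-- the bound of the squares at positive times -/
lemma sq_bound {β τ E : ℝ} (hβ : 5 / 2 ≤ β) (hτ : 0 < τ) (hE : 0 ≤ E) :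
    ∃ C : ℝ, 0 ≤ C ∧ ∀ (ν : ℝ) (x : ℕ → ℝ) (X : ℕ → ℝ → ℝ), Sol β ν E x X → ∀ t, τ ≤ t →
      ∀ n : ℕ, X n t ^ 2 ≤ C * ((2 : ℝ) ^ (-(2 * β / 3))) ^ n := by
  obtain ⟨C, hC⟩ := onsager_all hβ hτ hE
  refine ⟨C ^ 2, sq_nonneg _, fun ν x X S t ht n => ?_⟩
  have h1 := hC ν x X S t ht n
  have h2 : 0 ≤ (2 : ℝ) ^ (β / 3 * n) * X n t :=
    mul_nonneg (by positivity) (S.nn n (hτ.le.trans ht))
  have h3 := pow_le_pow_left₀ h2 h1 2
  have e1 : ((2 : ℝ) ^ (-(2 * β / 3))) ^ n * ((2 : ℝ) ^ (β / 3 * n)) ^ 2 = 1 := by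
    rw [← Real.rpow_natCast ((2 : ℝ) ^ (-(2 * β / 3))) n, ← Real.rpow_mul two_pos.le,
      ← Real.rpow_natCast ((2 : ℝ) ^ (β / 3 * n)) 2, ← Real.rpow_mul two_pos.le,
      ← Real.rpow_add two_pos, ← Real.rpow_zero (2 : ℝ)]
    congr 1
    push_cast
    ring
  have h4 := mul_le_mul_of_nonneg_left h3
    (by positivity : (0 : ℝ) ≤ ((2 : ℝ) ^ (-(2 * β / 3))) ^ n)
  calc X n t ^ 2 = ((2 : ℝ) ^ (-(2 * β / 3))) ^ n * ((2 : ℝ) ^ (β / 3 * n)) ^ 2 * X n t ^ 2 := by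
        rw [e1, one_mul]
    _ = ((2 : ℝ) ^ (-(2 * β / 3))) ^ n * ((2 : ℝ) ^ (β / 3 * n) * X n t) ^ 2 := by ring
    _ ≤ _ := h4
    _ = _ := by ring

lemma rate_lt {β : ℝ} (hβ : 0 < β) : (2 : ℝ) ^ (-(2 * β / 3)) < 1 :=
  Real.rpow_lt_one_of_one_lt_of_neg one_lt_two (by linarith)

lemma ii_diss' {β ν E : ℝ} {x : ℕ → ℝ} {X : ℕ → ℝ → ℝ} (S : Sol β ν E x X) (N : ℕ) {s t : ℝ}
    (hs : 0 ≤ s) (hst : s ≤ t) :
    IntervalIntegrable (fun r => ∑ n ∈ Finset.range N, (4 : ℝ) ^ n * X n r ^ 2) volume s t := by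
  refine ContinuousOn.intervalIntegrable ?_
  rw [uIcc_of_le hst]
  exact continuousOn_finsetSum _ fun n _ => continuousOn_const.mul
    (((S.dy.cont n).mono fun r hr => hs.trans hr.1).pow 2)

lemma diss_nn' {X : ℕ → ℝ → ℝ} (N : ℕ) {s t : ℝ} (hst : s ≤ t) :
    0 ≤ ∫ r in s..t, ∑ n ∈ Finset.range N, (4 : ℝ) ^ n * X n r ^ 2 :=
  intervalIntegral.integral_nonneg hst fun r _ => Finset.sum_nonneg fun n _ => by positivity

/-- the energy and the dissipated energy of the first `N` shells are nonincreasing in time -/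
lemma lhs_anti {β ν E : ℝ} {x : ℕ → ℝ} {X : ℕ → ℝ → ℝ} (S : Sol β ν E x X) (N : ℕ) {s t : ℝ}
    (hs : 0 ≤ s) (hst : s ≤ t) :
    ∑ n ∈ Finset.range N, X n t ^ 2
      + 2 * ν * (∫ r in (0 : ℝ)..t, ∑ n ∈ Finset.range N, 4 ^ n * X n r ^ 2)
      ≤ ∑ n ∈ Finset.range N, X n s ^ 2
        + 2 * ν * (∫ r in (0 : ℝ)..s, ∑ n ∈ Finset.range N, 4 ^ n * X n r ^ 2) := by
  have h1 := energy_anti S N hs hst
  rw [← intervalIntegral.integral_add_adjacent_intervals (ii_diss' S N le_rfl hs)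
    (ii_diss' S N hs hst)]
  linarith

/-- The energy of the inviscid solutions tends to zero. -/
theorem inviscid_decay {β E : ℝ} (hβ : 5 / 2 ≤ β) {ν : ℝ} {x : ℕ → ℝ} {Z : ℕ → ℝ → ℝ}
    (S : Sol β ν E x Z) {ε : ℝ} (hε : 0 < ε) :
    ∃ T, 1 ≤ T ∧ ∀ t, T ≤ t → ∀ N : ℕ, ∑ n ∈ Finset.range N, Z n t ^ 2 ≤ ε := by
  obtain ⟨C, hC0, hC⟩ := sq_bound hβ one_pos S.E0
  obtain ⟨q, hq⟩ : ∃ q, q = (2 : ℝ) ^ (-(2 * β / 3)) := ⟨_, rfl⟩
  have hq0 : 0 < q := by rw [hq]; positivity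
  have hq1 : q < 1 := by rw [hq]; exact rate_lt (by linarith)
  rw [← hq] at hC
  have hlim : Tendsto (fun N : ℕ => C * q ^ N / (1 - q)) atTop (𝓝 0) := by
    have := ((tendsto_pow_atTop_nhds_zero_of_lt_one hq0.le hq1).const_mul C).div_const (1 - q)
    simpa using this
  obtain ⟨N2, hN2⟩ := (hlim.eventually (gt_mem_nhds (half_pos hε))).exists
  have h1 : Tendsto (fun t => ∑ n ∈ Finset.range N2, Z n t ^ 2) atTop (𝓝 0) := by
    have := tendsto_finsetSum (Finset.range N2) fun n _ => shell_decay S n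
    simpa using this
  obtain ⟨a, ha⟩ := eventually_atTop.1 (h1.eventually (gt_mem_nhds (half_pos hε)))
  refine ⟨max a 1, le_max_right _ _, fun t ht N => ?_⟩
  have i1 := ha t ((le_max_left _ _).trans ht)
  have i2 := sum_le_tail (y := fun n => Z n t ^ 2) hq0.le hq1 hC0 (fun n => sq_nonneg _)
    (fun n => hC ν x Z S t ((le_max_right _ _).trans ht) n) N2 N
  linarith

/-- **The lost energy.** -/
theorem lost {β : ℝ} (hβ : 3 < β) {x : ℕ → ℝ} (hx : ∀ n, 0 ≤ x n)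
    (hs : Summable fun n => x n ^ 2) {ε : ℝ} (hε : 0 < ε) :
    ∃ μ0 > 0, ∃ T > 0, ∀ (μ : ℝ) (Y : ℕ → ℝ → ℝ), μ ≤ μ0 → Sol β μ (∑' n, x n ^ 2) x Y →
      ∀ t, T ≤ t → ∀ N : ℕ, ∑ n ∈ Finset.range N, Y n t ^ 2
        + 2 * μ * (∫ r in (0 : ℝ)..t, ∑ n ∈ Finset.range N, 4 ^ n * Y n r ^ 2) ≤ ε := by
  obtain ⟨E, hE⟩ : ∃ E, E = ∑' n, x n ^ 2 := ⟨_, rfl⟩
  rw [← hE]
  have hEN : ∀ N : ℕ, ∑ n ∈ Finset.range N, x n ^ 2 ≤ E := fun N => by
    rw [hE]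
    exact hs.sum_le_tsum _ fun n _ => sq_nonneg _
  have hE0 : 0 ≤ E := by simpa using hEN 0
  have hβ0 : 0 ≤ β := by linarith
  have hβ5 : 5 / 2 ≤ β := by linarith
  -- the inviscid solution
  obtain ⟨Z, hZ⟩ := exist_l2' β le_rfl hx hs
  have SZ : Sol β 0 E x Z := ⟨le_rfl, hx, hEN, hZ⟩
  -- the first shells at the time 0
  have h1 : ∀ᶠ N : ℕ in atTop, E - ε / 32 < ∑ n ∈ Finset.range N, x n ^ 2 := by
    have := hs.hasSum.tendsto_sum_nat
    rw [← hE] at this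
    exact this.eventually (lt_mem_nhds (by linarith))
  obtain ⟨N1, hN1⟩ := h1.exists
  -- a small time
  have h2 : ∃ τ, 0 < τ ∧ τ < 1 ∧ E - ε / 16 < ∑ n ∈ Finset.range N1, Z n τ ^ 2 := by
    have hc : ContinuousWithinAt (fun r => ∑ n ∈ Finset.range N1, Z n r ^ 2) (Ici 0) 0 :=
      (continuousOn_finsetSum _ fun n _ => (hZ.cont n).pow 2) 0 (mem_Ici.2 le_rfl)
    have h0 : ∑ n ∈ Finset.range N1, Z n 0 ^ 2 = ∑ n ∈ Finset.range N1, x n ^ 2 :=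
      Finset.sum_congr rfl fun n _ => by rw [hZ.init n]
    have h3 : ∀ᶠ r in 𝓝[Ici 0] (0 : ℝ), E - ε / 16 < ∑ n ∈ Finset.range N1, Z n r ^ 2 := by
      apply hc.eventually (lt_mem_nhds _)
      show E - ε / 16 < ∑ n ∈ Finset.range N1, Z n 0 ^ 2
      rw [h0]
      linarith
    have h4 : ∀ᶠ r in 𝓝[Ioi 0] (0 : ℝ), E - ε / 16 < ∑ n ∈ Finset.range N1, Z n r ^ 2 :=
      h3.filter_mono (nhdsWithin_mono 0 Ioi_subset_Ici_self)
    have h5 : ∀ᶠ r in 𝓝[Ioi 0] (0 : ℝ), r ∈ Ioo 0 1 := Ioo_mem_nhdsGT one_pos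
    obtain ⟨τ, h6, h7⟩ := (h4.and h5).exists
    exact ⟨τ, h7.1, h7.2, h6⟩
  obtain ⟨τ, hτ0, hτ1, hτ⟩ := h2
  -- the bound after the time τ
  obtain ⟨C, hC0, hC⟩ := sq_bound hβ5 hτ0 hE0
  obtain ⟨q, hq⟩ : ∃ q, q = (2 : ℝ) ^ (-(2 * β / 3)) := ⟨_, rfl⟩
  have hq0 : 0 < q := by rw [hq]; positivity
  have hq1 : q < 1 := by rw [hq]; exact rate_lt (by linarith)
  have hq4 : 4 * q < 1 := by
    have e : (4 : ℝ) = (2 : ℝ) ^ (2 : ℝ) := by norm_num
    rw [hq, e, ← Real.rpow_add two_pos]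
    exact Real.rpow_lt_one_of_one_lt_of_neg one_lt_two (by linarith)
  rw [← hq] at hC
  have hlim : Tendsto (fun N : ℕ => C * q ^ N / (1 - q)) atTop (𝓝 0) := by
    have := ((tendsto_pow_atTop_nhds_zero_of_lt_one hq0.le hq1).const_mul C).div_const (1 - q)
    simpa using this
  obtain ⟨N2, hN2⟩ := (hlim.eventually (gt_mem_nhds (by linarith : 0 < ε / 8))).exists
  -- the large time
  obtain ⟨T, hT1, hT⟩ := inviscid_decay hβ5 SZ (by linarith : 0 < ε / 16)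
  have hT0 : 0 < T := by linarith
  obtain ⟨μ1, hμ1, hst1⟩ := stab_sum hβ0 hT0.le SZ N1 (by linarith : 0 < ε / 16)
  obtain ⟨μ2, hμ2, hst2⟩ := stab_sum hβ0 hT0.le SZ N2 (by linarith : 0 < ε / 16)
  obtain ⟨B, hB⟩ : ∃ B, B = C / (1 - 4 * q) := ⟨_, rfl⟩
  have hB0 : 0 ≤ B := by
    rw [hB]
    exact div_nonneg hC0 (by linarith)
  refine ⟨min (min μ1 μ2) (ε / (8 * (T * (B + 1)))), by positivity, T, hT0,
    fun μ Y hμ SY t ht => ?_⟩
  have hμa : μ ≤ μ1 := hμ.trans ((min_le_left _ _).trans (min_le_left _ _))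
  have hμb : μ ≤ μ2 := hμ.trans ((min_le_left _ _).trans (min_le_right _ _))
  have hμc : μ ≤ ε / (8 * (T * (B + 1))) := hμ.trans (min_le_right _ _)
  have hμ0 := SY.ν0
  -- large N are sufficient
  suffices h : ∀ N, N1 ≤ N → ∑ n ∈ Finset.range N, Y n T ^ 2
      + 2 * μ * (∫ r in (0 : ℝ)..T, ∑ n ∈ Finset.range N, 4 ^ n * Y n r ^ 2) ≤ ε by
    intro N
    refine (lhs_anti SY N hT0.le ht).trans (le_trans ?_ (h (max N N1) (le_max_right _ _)))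
    have i1 : ∑ n ∈ Finset.range N, Y n T ^ 2 ≤ ∑ n ∈ Finset.range (max N N1), Y n T ^ 2 :=
      Finset.sum_le_sum_of_subset_of_nonneg (Finset.range_mono (le_max_left _ _))
        fun n _ _ => sq_nonneg _
    have i2 : ∫ r in (0 : ℝ)..T, ∑ n ∈ Finset.range N, (4 : ℝ) ^ n * Y n r ^ 2
        ≤ ∫ r in (0 : ℝ)..T, ∑ n ∈ Finset.range (max N N1), (4 : ℝ) ^ n * Y n r ^ 2 :=
      intervalIntegral.integral_mono_on hT0.le (ii_diss' SY N le_rfl hT0.le)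
        (ii_diss' SY (max N N1) le_rfl hT0.le) fun r _ =>
        Finset.sum_le_sum_of_subset_of_nonneg (Finset.range_mono (le_max_left _ _))
          fun n _ _ => by positivity
    have i3 := mul_le_mul_of_nonneg_left i2 (by positivity : 0 ≤ 2 * μ)
    linarith
  intro N hN
  -- the energy at the time T
  have j1 : ∑ n ∈ Finset.range N, Y n T ^ 2 ≤ ε / 4 := by
    have i1 := sum_le_tail (y := fun n => Y n T ^ 2) hq0.le hq1 hC0 (fun n => sq_nonneg _)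
      (fun n => hC μ x Y SY T (by linarith) n) N2 N
    have i2 := (abs_le.1 (hst2 μ Y hμb SY T ⟨hT0.le, le_rfl⟩)).2
    have i3 := hT T le_rfl N2
    linarith
  -- the dissipation up to the time τ
  have j2 : 2 * μ * (∫ r in (0 : ℝ)..τ, ∑ n ∈ Finset.range N, 4 ^ n * Y n r ^ 2) ≤ ε / 8 := by
    have i1 := energy_anti SY N le_rfl hτ0.le
    have i2 : ∑ n ∈ Finset.range N, Y n 0 ^ 2 ≤ E := by
      have : ∑ n ∈ Finset.range N, Y n 0 ^ 2 = ∑ n ∈ Finset.range N, x n ^ 2 :=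
        Finset.sum_congr rfl fun n _ => by rw [SY.dy.init n]
      rw [this]
      exact hEN N
    have i3 : ∑ n ∈ Finset.range N1, Y n τ ^ 2 ≤ ∑ n ∈ Finset.range N, Y n τ ^ 2 :=
      Finset.sum_le_sum_of_subset_of_nonneg (Finset.range_mono hN) fun n _ _ => sq_nonneg _
    have i4 := (abs_le.1 (hst1 μ Y hμa SY τ ⟨hτ0.le, by linarith⟩)).1
    linarith
  -- the dissipation after the time τ
  have j3 : 2 * μ * (∫ r in τ..T, ∑ n ∈ Finset.range N, 4 ^ n * Y n r ^ 2) ≤ ε / 4 := by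
    have i1 : ∫ r in τ..T, ∑ n ∈ Finset.range N, (4 : ℝ) ^ n * Y n r ^ 2 ≤ ∫ _ in τ..T, B := by
      refine intervalIntegral.integral_mono_on (by linarith)
        (ii_diss' SY N hτ0.le (by linarith)) intervalIntegrable_const fun r hr => ?_
      rw [hB]
      refine sum_le_geo (by positivity) hq4 hC0 (fun n => ?_) N
      have := mul_le_mul_of_nonneg_left (hC μ x Y SY r hr.1 n) (by positivity : (0 : ℝ) ≤ 4 ^ n)
      rw [mul_pow]
      linarith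
    rw [intervalIntegral.integral_const, smul_eq_mul] at i1
    have i2 : (T - τ) * B ≤ T * (B + 1) :=
      mul_le_mul (by linarith) (by linarith) hB0 hT0.le
    have i3 := mul_le_mul_of_nonneg_left (i1.trans i2) (by positivity : 0 ≤ 2 * μ)
    have i4 : μ * (8 * (T * (B + 1))) ≤ ε := by
      rwa [le_div_iff₀ (by positivity)] at hμc
    linarith
  rw [← intervalIntegral.integral_add_adjacent_intervals (ii_diss' SY N le_rfl hτ0.le)
    (ii_diss' SY N hτ0.le (by linarith : τ ≤ T))]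
  linarith

/-- the scaling -/
lemma scaling {β ν M E E' : ℝ} {x : ℕ → ℝ} {X : ℕ → ℝ → ℝ} (hM : 0 < M) (hx : ∀ n, 0 ≤ x n)
    (hE : ∀ N : ℕ, ∑ n ∈ Finset.range N, x n ^ 2 ≤ E) (S : Sol β ν E' (fun n => M * x n) X) :
    Sol β (ν / M) E x (fun n s => X n (s / M) / M) := by
  refine ⟨div_nonneg S.ν0 hM.le, hx, hE, ?_, ?_, ?_⟩
  · intro n
    simp only [zero_div]
    rw [S.dy.init n]
    field_simp
  · intro n
    refine ContinuousOn.div_const (ContinuousOn.comp (S.dy.cont n)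
      (continuous_id.div_const M).continuousOn fun s hs => ?_) M
    exact div_nonneg hs hM.le
  · intro n t ht
    have h1 := S.dy.ode n (t / M) (div_pos ht hM)
    have h2 : HasDerivAt (fun s : ℝ => s / M) (1 / M) t := (hasDerivAt_id t).div_const M
    have h3 := (h1.comp t h2).div_const M
    refine h3.congr_deriv ?_
    cases n with
    | zero => simp only [rhs]; field_simp
    | succ n => simp only [rhs]; field_simp

end Pool.Agent.Run7.h32.EE
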