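import Pool.Agent.Run7.h32.On.FinU

/-!
The dyadic model: the inviscid limit of the shells, and the decay of the shells for large times.
-/

set_option autoImplicit false

open Set Filter Topology MeasureTheory

namespace Pool.Agent.Run7.h32.EE

open Run7.h969.Dy Pool.Agent.Run7.h32.Dy Pool.Agent.Run7.h32.On

lemma rhs_zero_visc (β ν : ℝ) (z : ℕ → ℝ) (k : ℕ) :
    rhs β 0 z k = rhs β ν z k + ν * 4 ^ k * z k := by
  cases k with
  | zero => simp only [rhs, pow_zero]; ring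
  | succ k => simp only [rhs]; ring

lemma geo_two (N : ℕ) : ∑ k ∈ Finset.range (N + 1), (1 / 2 : ℝ) ^ k * 4 ^ k ≤ 2 * 2 ^ N := by
  have h : ∀ k : ℕ, (1 / 2 : ℝ) ^ k * 4 ^ k = 2 ^ k := fun k => by
    rw [← mul_pow]
    norm_num
  rw [Finset.sum_congr rfl fun k _ => h k]
  induction N with
  | zero => norm_num
  | succ N ih =>
    rw [Finset.sum_range_succ, pow_succ]
    linarith

/-- The distance of a viscous and an inviscid solution with the same data. -/
theorem stab_key {β ν E : ℝ} {x : ℕ → ℝ} {X Z : ℕ → ℝ → ℝ} (hβ : 0 ≤ β) (SX : Sol β ν E x X)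
    (SZ : Sol β 0 E x Z) {t : ℝ} (ht : 0 ≤ t) (N : ℕ) :
    ∑ k ∈ Finset.range (N + 1), (1 / 2 : ℝ) ^ k * (X k t - Z k t) ^ 2
      ≤ (1 / 2) ^ N * (ac β X N t + ac β Z (N + 1) t + (ac β Z N t + ac β X (N + 1) t))
        + 4 * ν * E * 2 ^ N * t := by
  have hcX : ∀ k, ContinuousOn (X k) (Icc 0 t) := fun k => SX.cont k t
  have hcZ : ∀ k, ContinuousOn (Z k) (Icc 0 t) := fun k => SZ.cont k t
  have hFd : ∀ r, 0 < r → HasDerivAt
      (fun r => ∑ k ∈ Finset.range (N + 1), (1 / 2 : ℝ) ^ k * (X k r - Z k r) ^ 2)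
      (2 * ∑ k ∈ Finset.range (N + 1), (1 / 2 : ℝ) ^ k * ((X k r - Z k r) *
        (rhs β ν (fun k => X k r) k - rhs β 0 (fun k => Z k r) k))) r := by
    intro r hr
    have h1 : HasDerivAt (fun r => ∑ k ∈ Finset.range (N + 1), (1 / 2 : ℝ) ^ k * (X k r - Z k r) ^ 2)
        (∑ k ∈ Finset.range (N + 1), 2 * ((1 / 2 : ℝ) ^ k * ((X k r - Z k r) *
        (rhs β ν (fun k => X k r) k - rhs β 0 (fun k => Z k r) k)))) r := by
      refine HasDerivAt.fun_sum fun k _ => ?_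
      refine ((((SX.dy.ode k r hr).fun_sub (SZ.dy.ode k r hr)).fun_pow 2).const_mul
        _).congr_deriv ?_
      norm_num
      ring
    rw [Finset.mul_sum]
    exact h1
  have hcr : ∀ k, ContinuousOn (fun r => rhs β ν (fun k => X k r) k
      - rhs β 0 (fun k => Z k r) k) (Icc 0 t) := fun k => (rhs_cont hcX k).sub (rhs_cont hcZ k)
  have hcF : ContinuousOn (fun r => 2 * ∑ k ∈ Finset.range (N + 1), (1 / 2 : ℝ) ^ k *
      ((X k r - Z k r) * (rhs β ν (fun k => X k r) k - rhs β 0 (fun k => Z k r) k))) (Icc 0 t) :=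
    continuousOn_const.mul (continuousOn_finsetSum _ fun k _ =>
      continuousOn_const.mul (((hcX k).sub (hcZ k)).mul (hcr k)))
  have hi : ∀ (Y : ℕ → ℝ → ℝ) (_ : ∀ k, ContinuousOn (Y k) (Icc 0 t)) (k : ℕ),
      IntervalIntegrable (fun r => (2 : ℝ) ^ (β * k) * Y k r ^ 3) volume 0 t := by
    intro Y hY k
    refine ContinuousOn.intervalIntegrable ?_
    rw [uIcc_of_le ht]
    exact continuousOn_const.mul ((hY k).pow 3)
  have hint : ∫ r in (0 : ℝ)..t, (2 * ∑ k ∈ Finset.range (N + 1), (1 / 2 : ℝ) ^ k *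
      ((X k r - Z k r) * (rhs β ν (fun k => X k r) k - rhs β 0 (fun k => Z k r) k)))
      = ∑ k ∈ Finset.range (N + 1), (1 / 2 : ℝ) ^ k * (X k t - Z k t) ^ 2
        - ∑ k ∈ Finset.range (N + 1), (1 / 2 : ℝ) ^ k * (X k 0 - Z k 0) ^ 2 := by
    refine intervalIntegral.integral_eq_sub_of_hasDerivAt_of_le ht
      (f := fun r => ∑ k ∈ Finset.range (N + 1), (1 / 2 : ℝ) ^ k * (X k r - Z k r) ^ 2) ?_ ?_ ?_
    · exact continuousOn_finsetSum _ fun k _ => continuousOn_const.mul (((hcX k).sub (hcZ k)).pow 2)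
    · exact fun r hr => hFd r hr.1
    · exact ContinuousOn.intervalIntegrable (by rw [uIcc_of_le ht]; exact hcF)
  have h0 : ∑ k ∈ Finset.range (N + 1), (1 / 2 : ℝ) ^ k * (X k 0 - Z k 0) ^ 2 = 0 := by
    refine Finset.sum_eq_zero fun k _ => ?_
    rw [SX.dy.init k, SZ.dy.init k]
    ring
  have hE := SX.E0
  have hν := SX.ν0
  have hle : ∫ r in (0 : ℝ)..t, (2 * ∑ k ∈ Finset.range (N + 1), (1 / 2 : ℝ) ^ k *
      ((X k r - Z k r) * (rhs β ν (fun k => X k r) k - rhs β 0 (fun k => Z k r) k)))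
      ≤ ∫ r in (0 : ℝ)..t, ((1 / 2 : ℝ) ^ N * ((2 : ℝ) ^ (β * N) * X N r ^ 3
        + (2 : ℝ) ^ (β * (N + 1 : ℕ)) * Z (N + 1) r ^ 3
        + ((2 : ℝ) ^ (β * N) * Z N r ^ 3 + (2 : ℝ) ^ (β * (N + 1 : ℕ)) * X (N + 1) r ^ 3))
        + 4 * ν * E * 2 ^ N) := by
    refine intervalIntegral.integral_mono_on ht
      (ContinuousOn.intervalIntegrable (by rw [uIcc_of_le ht]; exact hcF))
      (((((hi X hcX N).add (hi Z hcZ (N + 1))).add
        ((hi Z hcZ N).add (hi X hcX (N + 1)))).const_mul _).add intervalIntegrable_const)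
      fun r hr => ?_
    have hr0 := hr.1
    have hxr : ∀ k, 0 ≤ X k r := fun k => SX.nn k hr0
    have hzr : ∀ k, 0 ≤ Z k r := fun k => SZ.nn k hr0
    have hsplit : ∑ k ∈ Finset.range (N + 1), (1 / 2 : ℝ) ^ k *
        ((X k r - Z k r) * (rhs β ν (fun k => X k r) k - rhs β 0 (fun k => Z k r) k))
        = ∑ k ∈ Finset.range (N + 1), (1 / 2 : ℝ) ^ k *
          ((X k r - Z k r) * (rhs β ν (fun k => X k r) k - rhs β ν (fun k => Z k r) k))
          + ∑ k ∈ Finset.range (N + 1), (1 / 2 : ℝ) ^ k * (ν * 4 ^ k *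
            (Z k r ^ 2 - X k r * Z k r)) := by
      rw [← Finset.sum_add_distrib]
      refine Finset.sum_congr rfl fun k _ => ?_
      rw [rhs_zero_visc β ν]
      ring
    have hextra : ∑ k ∈ Finset.range (N + 1), (1 / 2 : ℝ) ^ k * (ν * 4 ^ k *
        (Z k r ^ 2 - X k r * Z k r)) ≤ 2 * ν * E * 2 ^ N := by
      have h1 : ∀ k ∈ Finset.range (N + 1), (1 / 2 : ℝ) ^ k * (ν * 4 ^ k *
          (Z k r ^ 2 - X k r * Z k r)) ≤ (ν * E) * ((1 / 2 : ℝ) ^ k * 4 ^ k) := by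
        intro k _
        have i1 : Z k r ^ 2 - X k r * Z k r ≤ E := by
          have := SZ.sq_le k hr0
          have := mul_nonneg (hxr k) (hzr k)
          linarith
        have i2 := mul_le_mul_of_nonneg_left i1 (by positivity : (0 : ℝ) ≤ (1 / 2) ^ k * (ν * 4 ^ k))
        calc _ = (1 / 2 : ℝ) ^ k * (ν * 4 ^ k) * (Z k r ^ 2 - X k r * Z k r) := by ring
          _ ≤ _ := i2
          _ = _ := by ring
      refine (Finset.sum_le_sum h1).trans ?_
      rw [← Finset.mul_sum]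
      have := mul_le_mul_of_nonneg_left (geo_two N) (mul_nonneg hν hE)
      linarith
    rw [hsplit, wdiff_sum]
    have h1 : 0 ≤ ∑ n ∈ Finset.range (N + 1), (1 / 2 : ℝ) ^ (n + 1) *
      ((2 : ℝ) ^ (β * n) * ((X (n + 1) r + Z (n + 1) r) * (X n r - Z n r) ^ 2)) :=
      Finset.sum_nonneg fun n _ => mul_nonneg (by positivity)
        (mul_nonneg (cp β n).le (mul_nonneg (add_nonneg (hxr _) (hzr _)) (sq_nonneg _)))
    have h2 : 0 ≤ ν * ∑ n ∈ Finset.range (N + 1), (1 / 2 : ℝ) ^ n *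
        (4 ^ n * (X n r - Z n r) ^ 2) :=
      mul_nonneg SX.ν0 (Finset.sum_nonneg fun n _ => by positivity)
    obtain ⟨K, hK⟩ : ∃ K, K = (2 : ℝ) ^ (β * N) := ⟨_, rfl⟩
    have hK0 : 0 < K := hK ▸ cp β N
    have hK1 : K ≤ (2 : ℝ) ^ (β * (N + 1 : ℕ)) := by
      rw [hK]
      apply Real.rpow_le_rpow_of_exponent_le one_le_two
      push_cast
      nlinarith
    rw [← hK]
    have h3 : -((X N r ^ 2 - Z N r ^ 2) * (X (N + 1) r - Z (N + 1) r))
        ≤ X N r ^ 3 + Z (N + 1) r ^ 3 + (Z N r ^ 3 + X (N + 1) r ^ 3) := by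
      have i1 := sq_mul_le (hxr N) (hzr (N + 1))
      have i2 := sq_mul_le (hzr N) (hxr (N + 1))
      have i3 : 0 ≤ X N r ^ 2 * X (N + 1) r := mul_nonneg (sq_nonneg _) (hxr _)
      have i4 : 0 ≤ Z N r ^ 2 * Z (N + 1) r := mul_nonneg (sq_nonneg _) (hzr _)
      linarith
    have h4 := mul_le_mul_of_nonneg_left h3 hK0.le
    have h5 : K * X (N + 1) r ^ 3 ≤ (2 : ℝ) ^ (β * (N + 1 : ℕ)) * X (N + 1) r ^ 3 :=
      mul_le_mul_of_nonneg_right hK1 (pow_nonneg (hxr _) 3)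
    have h6 : K * Z (N + 1) r ^ 3 ≤ (2 : ℝ) ^ (β * (N + 1 : ℕ)) * Z (N + 1) r ^ 3 :=
      mul_le_mul_of_nonneg_right hK1 (pow_nonneg (hzr _) 3)
    have h7 : K * -((X N r ^ 2 - Z N r ^ 2) * (X (N + 1) r - Z (N + 1) r))
        ≤ K * X N r ^ 3 + (2 : ℝ) ^ (β * (N + 1 : ℕ)) * Z (N + 1) r ^ 3
          + (K * Z N r ^ 3 + (2 : ℝ) ^ (β * (N + 1 : ℕ)) * X (N + 1) r ^ 3) := by
      linarith
    have h8 := mul_le_mul_of_nonneg_left h7 (by positivity : (0 : ℝ) ≤ (1 / 2) ^ N)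
    have h9 : (1 / 2 : ℝ) ^ (N + 1) = 1 / 2 * (1 / 2) ^ N := by rw [pow_succ]; ring
    rw [h9]
    linarith
  rw [hint, h0, sub_zero, intervalIntegral.integral_add
      ((((hi X hcX N).add (hi Z hcZ (N + 1))).add
        ((hi Z hcZ N).add (hi X hcX (N + 1)))).const_mul _) intervalIntegrable_const,
    intervalIntegral.integral_const, intervalIntegral.integral_const_mul,
    intervalIntegral.integral_add ((hi X hcX N).add (hi Z hcZ (N + 1)))
      ((hi Z hcZ N).add (hi X hcX (N + 1))),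
    intervalIntegral.integral_add (hi X hcX N) (hi Z hcZ (N + 1)),
    intervalIntegral.integral_add (hi Z hcZ N) (hi X hcX (N + 1)), smul_eq_mul, sub_zero] at hle
  simp only [ac]
  linarith

/-- **The inviscid limit of the shells.** -/
theorem stab {β E T : ℝ} {x : ℕ → ℝ} {Z : ℕ → ℝ → ℝ} (hβ : 0 ≤ β) (hT : 0 ≤ T)
    (SZ : Sol β 0 E x Z) (n : ℕ) {ε : ℝ} (hε : 0 < ε) :
    ∃ ν0 > 0, ∀ (ν : ℝ) (X : ℕ → ℝ → ℝ), ν ≤ ν0 → Sol β ν E x X → ∀ t ∈ Icc 0 T,
      (X n t - Z n t) ^ 2 ≤ ε := by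
  have hE := SZ.E0
  obtain ⟨j, hj⟩ := pow_unbounded_of_one_lt (2 * β) (one_lt_two : (1 : ℝ) < 2)
  obtain ⟨D, hD0, hD⟩ := ac_bound (T := T) (E := E) hβ hT hE j
  have hg : β / 2 ^ j ≤ 1 / 2 := by
    rw [div_le_iff₀ (by positivity)]
    linarith
  have h2 : √2 ≤ (3 / 2 : ℝ) := by
    rw [Real.sqrt_le_left (by norm_num)]
    norm_num
  have hb : ∀ (ν : ℝ) (Y : ℕ → ℝ → ℝ), Sol β ν E x Y → ∀ t ∈ Icc 0 T, ∀ N : ℕ,
      ac β Y N t ≤ D * (3 / 2) ^ N := by
    intro ν Y SY t ht N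
    refine (hD ν x Y SY t ht N).trans ?_
    apply mul_le_mul_of_nonneg_left _ hD0
    have e1 : (√2 : ℝ) ^ N = (2 : ℝ) ^ (1 / 2 * (N : ℝ)) := by
      rw [Real.rpow_mul two_pos.le, Real.rpow_natCast, Real.sqrt_eq_rpow]
    have e2 : (√2 : ℝ) ^ N ≤ (3 / 2) ^ N := pow_le_pow_left₀ (by positivity) h2 N
    refine le_trans ?_ e2
    rw [e1]
    apply Real.rpow_le_rpow_of_exponent_le one_le_two
    exact mul_le_mul_of_nonneg_right hg (Nat.cast_nonneg N)
  obtain ⟨δ, hδ⟩ : ∃ δ, δ = (1 / 2 : ℝ) ^ n * ε / 2 := ⟨_, rfl⟩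
  have hδ0 : 0 < δ := by rw [hδ]; positivity
  have hlim : Tendsto (fun N : ℕ => (3 / 4 : ℝ) ^ N * (5 * D)) atTop (𝓝 0) := by
    have := (tendsto_pow_atTop_nhds_zero_of_lt_one (by norm_num : (0 : ℝ) ≤ 3 / 4)
      (by norm_num)).mul_const (5 * D)
    simpa using this
  obtain ⟨N, hN1, hN2⟩ := ((hlim.eventually (gt_mem_nhds hδ0)).and
    (eventually_ge_atTop n)).exists
  refine ⟨δ / (4 * (E + 1) * 2 ^ N * (T + 1)), by positivity, fun ν X hν SX t ht => ?_⟩
  have key := stab_key hβ SX SZ ht.1 N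
  have hν0 := SX.ν0
  have i1 := hb ν X SX t ht N
  have i2 := hb 0 Z SZ t ht N
  have i3 := hb ν X SX t ht (N + 1)
  have i4 := hb 0 Z SZ t ht (N + 1)
  have i5 : (3 / 2 : ℝ) ^ (N + 1) = 3 / 2 * (3 / 2) ^ N := by rw [pow_succ]; ring
  rw [i5] at i3 i4
  have i6 : (3 / 4 : ℝ) ^ N = (1 / 2) ^ N * (3 / 2) ^ N := by
    rw [← mul_pow]
    norm_num
  have i7 : (1 / 2 : ℝ) ^ N * (ac β X N t + ac β Z (N + 1) t + (ac β Z N t + ac β X (N + 1) t))
      ≤ (3 / 4 : ℝ) ^ N * (5 * D) := by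
    rw [i6]
    have : (1 / 2 : ℝ) ^ N * (3 / 2) ^ N * (5 * D) = (1 / 2) ^ N * (5 * (D * (3 / 2) ^ N)) := by
      ring
    rw [this]
    apply mul_le_mul_of_nonneg_left _ (by positivity)
    linarith
  have i8 : 4 * ν * E * 2 ^ N * t ≤ δ := by
    have h1 : ν * (4 * (E + 1) * 2 ^ N * (T + 1)) ≤ δ := by
      rwa [le_div_iff₀ (by positivity)] at hν
    have h2 : E * t ≤ (E + 1) * (T + 1) :=
      mul_le_mul (by linarith) (by linarith [ht.2]) ht.1 (by linarith)
    have h3 := mul_le_mul_of_nonneg_left h2 (by positivity : (0 : ℝ) ≤ 4 * ν * 2 ^ N)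
    calc 4 * ν * E * 2 ^ N * t = 4 * ν * 2 ^ N * (E * t) := by ring
      _ ≤ _ := h3
      _ = ν * (4 * (E + 1) * 2 ^ N * (T + 1)) := by ring
      _ ≤ δ := h1
  have i9 : (1 / 2 : ℝ) ^ n * (X n t - Z n t) ^ 2 ≤ (1 / 2 : ℝ) ^ n * ε := by
    have := Finset.single_le_sum (f := fun k => (1 / 2 : ℝ) ^ k * (X k t - Z k t) ^ 2)
      (fun k _ => by positivity) (Finset.mem_range.2 (Nat.lt_succ_of_le hN2))
    have e : (1 / 2 : ℝ) ^ n * ε = δ + δ := by rw [hδ]; ring
    rw [e]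
    have hN1' := hN1.le
    linarith
  exact le_of_mul_le_mul_left i9 (by positivity)

/-! ### decay of the shells -/

/-- the truncated energy is nonincreasing -/
lemma energy_anti {β ν E : ℝ} {x : ℕ → ℝ} {X : ℕ → ℝ → ℝ} (S : Sol β ν E x X) (N : ℕ)
    {s t : ℝ} (hs : 0 ≤ s) (hst : s ≤ t) :
    ∑ n ∈ Finset.range N, X n t ^ 2 + 2 * ν * (∫ r in s..t, ∑ n ∈ Finset.range N, 4 ^ n * X n r ^ 2)
      ≤ ∑ n ∈ Finset.range N, X n s ^ 2 := by
  cases N with
  | zero => simp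
  | succ N =>
  have hc : ∀ k, ContinuousOn (X k) (Icc s t) := fun k =>
    (S.cont k t).mono (Icc_subset_Icc_left hs)
  have hc1 : ContinuousOn (fun s => (2 : ℝ) ^ (β * N) * (X N s ^ 2 * X (N + 1) s)) (Icc s t) :=
    continuousOn_const.mul (((hc N).pow 2).mul (hc (N + 1)))
  have hc2 : ContinuousOn (fun s => ∑ n ∈ Finset.range (N + 1), (4 : ℝ) ^ n * X n s ^ 2)
      (Icc s t) := continuousOn_finsetSum _ fun n _ => continuousOn_const.mul ((hc n).pow 2)
  have hi1 : IntervalIntegrable (fun s => (2 : ℝ) ^ (β * N) * (X N s ^ 2 * X (N + 1) s))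
      volume s t := ContinuousOn.intervalIntegrable (by rw [uIcc_of_le hst]; exact hc1)
  have hi2 : IntervalIntegrable (fun s => ∑ n ∈ Finset.range (N + 1), (4 : ℝ) ^ n * X n s ^ 2)
      volume s t := ContinuousOn.intervalIntegrable (by rw [uIcc_of_le hst]; exact hc2)
  have h1 : ∫ s in s..t, (-2 * ((2 : ℝ) ^ (β * N) * (X N s ^ 2 * X (N + 1) s))
      - 2 * ν * (∑ n ∈ Finset.range (N + 1), 4 ^ n * X n s ^ 2))
      = ∑ n ∈ Finset.range (N + 1), X n t ^ 2 - ∑ n ∈ Finset.range (N + 1), X n s ^ 2 := by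
    refine intervalIntegral.integral_eq_sub_of_hasDerivAt_of_le hst
      (f := fun s => ∑ n ∈ Finset.range (N + 1), X n s ^ 2) ?_ ?_ ?_
    · exact continuousOn_finsetSum _ fun k _ => (hc k).pow 2
    · intro r hr
      have hr0 : 0 < r := hs.trans_lt hr.1
      have := energy_hd (S := univ) (β := β) (ν := ν) (X := X) (t := r) N
        (fun n _ => (S.dy.ode n r hr0).hasDerivWithinAt)
      refine (this.hasDerivAt univ_mem).congr_deriv ?_
      ring
    · exact (hi1.const_mul (-2)).sub (hi2.const_mul (2 * ν))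
  rw [intervalIntegral.integral_sub (hi1.const_mul (-2)) (hi2.const_mul (2 * ν)),
    intervalIntegral.integral_const_mul (-2), intervalIntegral.integral_const_mul (2 * ν)] at h1
  have h2 : 0 ≤ ∫ r in s..t, (2 : ℝ) ^ (β * N) * (X N r ^ 2 * X (N + 1) r) :=
    intervalIntegral.integral_nonneg hst fun r hr =>
      mul_nonneg (cp β N).le (mul_nonneg (sq_nonneg _) (S.nn _ (hs.trans hr.1)))
  linarith

lemma energy_anti' {β ν E : ℝ} {x : ℕ → ℝ} {X : ℕ → ℝ → ℝ} (S : Sol β ν E x X) (N : ℕ)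
    {s t : ℝ} (hs : 0 ≤ s) (hst : s ≤ t) :
    ∑ n ∈ Finset.range N, X n t ^ 2 ≤ ∑ n ∈ Finset.range N, X n s ^ 2 := by
  have h1 := energy_anti S N hs hst
  have h2 : 0 ≤ ∫ r in s..t, ∑ n ∈ Finset.range N, (4 : ℝ) ^ n * X n r ^ 2 :=
    intervalIntegral.integral_nonneg hst fun r _ => Finset.sum_nonneg fun n _ => by positivity
  have h3 := mul_nonneg (mul_nonneg two_pos.le S.ν0) h2
  linarith

/-- the squares of the shells have limits -/
lemma sq_lim {β ν E : ℝ} {x : ℕ → ℝ} {X : ℕ → ℝ → ℝ} (S : Sol β ν E x X) (n : ℕ) :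
    ∃ l, 0 ≤ l ∧ Tendsto (fun t => X n t ^ 2) atTop (𝓝 l) := by
  have h : ∀ N : ℕ, ∃ e, Tendsto (fun t => ∑ n ∈ Finset.range N, X n t ^ 2) atTop (𝓝 e) := by
    intro N
    obtain ⟨f, hf⟩ : ∃ f : ℝ → ℝ, f = fun t => ∑ n ∈ Finset.range N, X n (max t 0) ^ 2 := ⟨_, rfl⟩
    have hanti : Antitone f := by
      intro s t hst
      rw [hf]
      exact energy_anti' S N (le_max_right _ _) (max_le_max hst le_rfl)
    have hbdd : BddBelow (range f) := by
      refine ⟨0, ?_⟩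
      rintro _ ⟨t, rfl⟩
      rw [hf]
      exact Finset.sum_nonneg fun n _ => sq_nonneg _
    refine ⟨_, (tendsto_atTop_ciInf hanti hbdd).congr' ?_⟩
    filter_upwards [eventually_ge_atTop 0] with t ht
    rw [hf]
    simp only [max_eq_left ht]
  obtain ⟨e1, h1⟩ := h (n + 1)
  obtain ⟨e0, h0⟩ := h n
  have h2 := h1.sub h0
  have h3 : (fun t => ∑ k ∈ Finset.range (n + 1), X k t ^ 2 - ∑ k ∈ Finset.range n, X k t ^ 2)
      = fun t => X n t ^ 2 := by
    funext t
    rw [Finset.sum_range_succ]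
    ring
  rw [h3] at h2
  exact ⟨_, ge_of_tendsto' h2 fun t => sq_nonneg _, h2⟩

/-- **All the shells tend to zero**, for every `ν ≥ 0`. -/
theorem shell_decay {β ν E : ℝ} {x : ℕ → ℝ} {X : ℕ → ℝ → ℝ} (S : Sol β ν E x X) (n : ℕ) :
    Tendsto (fun t => X n t ^ 2) atTop (𝓝 0) := by
  obtain ⟨l, hl0, hl⟩ := sq_lim S n
  rcases hl0.eq_or_lt with h0 | h0
  · rwa [h0]
  exfalso
  have hE := S.E0
  obtain ⟨T0, hT0, hT⟩ : ∃ T0, 0 ≤ T0 ∧ ∀ t, T0 ≤ t → l / 2 ≤ X n t ^ 2 := by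
    have h1 : ∀ᶠ t in atTop, l / 2 < X n t ^ 2 := hl.eventually (lt_mem_nhds (by linarith))
    obtain ⟨a, ha⟩ := eventually_atTop.1 h1
    exact ⟨max a 0, le_max_right _ _, fun t ht => (ha t ((le_max_left _ _).trans ht)).le⟩
  obtain ⟨c, hc⟩ : ∃ c, c = (2 : ℝ) ^ (β * n) := ⟨_, rfl⟩
  have hc0 : 0 < c := hc ▸ cp β n
  obtain ⟨c', hc'⟩ : ∃ c', c' = (2 : ℝ) ^ (β * (n + 1 : ℕ)) * √E + ν * 4 ^ (n + 1) := ⟨_, rfl⟩
  have hc'0 : 0 ≤ c' := by
    rw [hc']
    have := cp β (n + 1)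
    have := S.ν0
    positivity
  have key : ∀ t, T0 ≤ t → c * (l / 2) * (t - T0) ≤ √E + c' * (E / (c * l)) := by
    intro t ht
    have ht0 : 0 ≤ t := hT0.trans ht
    have hcX : ∀ k, ContinuousOn (X k) (uIcc T0 t) := fun k => by
      rw [uIcc_of_le ht]
      exact (S.cont k t).mono (Icc_subset_Icc_left hT0)
    -- the integral of the next shell
    have hflux : c * (l / 2) * (∫ r in T0..t, X (n + 1) r) ≤ E / 2 := by
      have h1 : c * (l / 2) * (∫ r in T0..t, X (n + 1) r)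
          ≤ ∫ r in T0..t, c * (X n r ^ 2 * X (n + 1) r) := by
        rw [← intervalIntegral.integral_const_mul]
        refine intervalIntegral.integral_mono_on ht
          (continuousOn_const.mul (hcX (n + 1))).intervalIntegrable
          (continuousOn_const.mul (((hcX n).pow 2).mul (hcX (n + 1)))).intervalIntegrable
          fun r hr => ?_
        have h2 := mul_le_mul_of_nonneg_right (hT r hr.1) (S.nn (n + 1) (hT0.trans hr.1))
        have h3 := mul_le_mul_of_nonneg_left h2 hc0.le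
        linarith
      have h2 : ∫ r in T0..t, c * (X n r ^ 2 * X (n + 1) r)
          ≤ ∫ r in (0 : ℝ)..t, c * (X n r ^ 2 * X (n + 1) r) := by
        have hi : ∀ a b : ℝ, 0 ≤ a → 0 ≤ b → IntervalIntegrable
            (fun r => c * (X n r ^ 2 * X (n + 1) r)) volume a b := by
          intro a b ha hb
          refine ContinuousOn.intervalIntegrable ?_
          have hc : ∀ k, ContinuousOn (X k) (uIcc a b) := fun k =>
            (S.dy.cont k).mono fun r hr => by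
              rcases le_total a b with h | h
              · rw [uIcc_of_le h] at hr; exact ha.trans hr.1
              · rw [uIcc_of_ge h] at hr; exact hb.trans hr.1
          exact continuousOn_const.mul (((hc n).pow 2).mul (hc (n + 1)))
        rw [← intervalIntegral.integral_add_adjacent_intervals (hi 0 T0 le_rfl hT0)
          (hi T0 t hT0 ht0)]
        have : 0 ≤ ∫ r in (0 : ℝ)..T0, c * (X n r ^ 2 * X (n + 1) r) :=
          intervalIntegral.integral_nonneg hT0 fun r hr =>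
            mul_nonneg hc0.le (mul_nonneg (sq_nonneg _) (S.nn _ hr.1))
        linarith
      have h3 := S.flux n ht0
      rw [← hc] at h3
      linarith
    have hK : (∫ r in T0..t, X (n + 1) r) ≤ E / (c * l) := by
      rw [le_div_iff₀ (by positivity)]
      linarith
    -- the equation of the next shell
    have hftc : ∫ r in T0..t, rhs β ν (fun k => X k r) (n + 1) = X (n + 1) t - X (n + 1) T0 := by
      refine intervalIntegral.integral_eq_sub_of_hasDerivAt_of_le ht (f := X (n + 1)) ?_ ?_ ?_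
      · have := hcX (n + 1)
        rwa [uIcc_of_le ht] at this
      · exact fun r hr => S.dy.ode (n + 1) r (hT0.trans_lt hr.1)
      · exact (rhs_cont hcX (n + 1)).intervalIntegrable
    have hge : ∫ r in T0..t, (c * (l / 2) - c' * X (n + 1) r)
        ≤ ∫ r in T0..t, rhs β ν (fun k => X k r) (n + 1) := by
      refine intervalIntegral.integral_mono_on ht
        (continuousOn_const.sub (continuousOn_const.mul (hcX (n + 1)))).intervalIntegrable
        (rhs_cont hcX (n + 1)).intervalIntegrable fun r hr => ?_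
      have hr0 : 0 ≤ r := hT0.trans hr.1
      have h1 := mul_le_mul_of_nonneg_left (hT r hr.1) hc0.le
      have h2 : X (n + 2) r ≤ √E := Real.le_sqrt_of_sq_le (S.sq_le (n + 2) hr0)
      have h3 : (2 : ℝ) ^ (β * (n + 1 : ℕ)) * (X (n + 1) r * X (n + 2) r)
          ≤ (2 : ℝ) ^ (β * (n + 1 : ℕ)) * (X (n + 1) r * √E) :=
        mul_le_mul_of_nonneg_left (mul_le_mul_of_nonneg_left h2 (S.nn _ hr0))
          (Real.rpow_pos_of_pos two_pos _).le
      have h4 : rhs β ν (fun k => X k r) (n + 1) = c * X n r ^ 2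
          - (2 : ℝ) ^ (β * (n + 1 : ℕ)) * (X (n + 1) r * X (n + 2) r)
          - ν * 4 ^ (n + 1) * X (n + 1) r := by
        rw [hc]
        simp only [rhs]
        push_cast
        ring
      rw [h4, hc']
      linarith
    have hi3 : IntervalIntegrable (fun r => c' * X (n + 1) r) volume T0 t :=
      (continuousOn_const.mul (hcX (n + 1))).intervalIntegrable
    rw [intervalIntegral.integral_sub intervalIntegrable_const hi3,
      intervalIntegral.integral_const, intervalIntegral.integral_const_mul, smul_eq_mul, hftc]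
      at hge
    have h1 : X (n + 1) t ≤ √E := Real.le_sqrt_of_sq_le (S.sq_le (n + 1) ht0)
    have h2 : 0 ≤ X (n + 1) T0 := S.nn _ hT0
    have h3 := mul_le_mul_of_nonneg_left hK hc'0
    linarith
  have hcl : 0 < c * (l / 2) := by positivity
  have h1 := key (T0 + (√E + c' * (E / (c * l)) + 1) / (c * (l / 2))) (by
    have : 0 ≤ (√E + c' * (E / (c * l)) + 1) / (c * (l / 2)) := by positivity
    linarith)
  have h2 : c * (l / 2) * (T0 + (√E + c' * (E / (c * l)) + 1) / (c * (l / 2)) - T0)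
      = √E + c' * (E / (c * l)) + 1 := by
    field_simp
    ring
  linarith

end Pool.Agent.Run7.h32.EE
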